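import Pool.Agent.Q124.Tie.Fin

/-!
# Every tie knot is a 2-bridge knot

The definitions (tie sequences and the standard diagrams of their tie knots, as sliced diagrams of
the starting library) are in `Pool.Agent.Q124.Tie.Defs`.
-/

set_option autoImplicit false

namespace Pool.Agent.Results.MP_c2102d_gt.TwoBridge

open Pool.Agent.Helper454.Kauf Pool.Agent.Q124.Tie

/-- **Every tie knot is a 2-bridge knot.** The diagram of every tie sequence is a closed diagram and
is isotopic to a diagram with at most two local maxima. -/
theorem result (s : List Move) (h : IsTie s) :
    Closed (tieDiagram s) ∧ BridgeAtMost 2 (tieDiagram s) :=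
  main s h

end Pool.Agent.Results.MP_c2102d_gt.TwoBridge
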